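import Pool.Agent.Q108.Cop.Game

/-!
# Cop numbers of `P_k`-free graphs for even `k`

For every even `k ≥ 6` there is a finite connected graph without induced path on `k` vertices
whose cop number is at least `k / 2`, that is, larger than `⌊(k - 1) / 2⌋`.  So the set `𝒦` of the
problem contains all even `k ≥ 8`; in particular it is not empty.

`Move G x y`: `x = y` or `x`, `y` are adjacent.  `CopsWin G k` (in `Pool.Agent.Q108.Cop.Game`):
some strategy of `k` cops, which may depend on all past positions of the robber, catches every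
robber.  `copNumber G`: the least `k` with `CopsWin G k`.
-/

namespace Pool.Agent.Results.MP_dfa28f_co.EvenLengths

open Pool.Agent.Q108.Cop

/-- `G` has no induced path with `k` vertices. -/
def PathFree {V : Type} (k : ℕ) (G : SimpleGraph V) : Prop :=
  IsEmpty (SimpleGraph.pathGraph k ↪g G)

/-- The set of the problem: the integers `k ≥ 7` for which some finite connected `P_k`-free graph
has cop number larger than `⌊(k - 1) / 2⌋`. -/
def setK : Set ℕ :=
  {k | 7 ≤ k ∧ ∃ (n : ℕ) (G : SimpleGraph (Fin n)), G.Connected ∧ PathFree k G ∧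
    (k - 1) / 2 < copNumber G}

/-- **Main theorem.** -/
theorem result :
    (∀ k : ℕ, Even k → 6 ≤ k → ∃ (n : ℕ) (G : SimpleGraph (Fin n)), G.Connected ∧ PathFree k G ∧
      k / 2 ≤ copNumber G) ∧
    (∀ k : ℕ, Even k → 8 ≤ k → k ∈ setK) ∧ setK ≠ ∅ := by
  have h1 : ∀ k : ℕ, Even k → 6 ≤ k → ∃ (n : ℕ) (G : SimpleGraph (Fin n)), G.Connected ∧
      PathFree k G ∧ k / 2 ≤ copNumber G := by
    intro k hk hk6
    obtain ⟨m, rfl⟩ : ∃ m, k = 2 * m + 2 := by
      obtain ⟨t, rfl⟩ := hk
      exact ⟨t - 1, by omega⟩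
    obtain ⟨n, G, hc, hf, hn⟩ := exists_connected (m := m) (by omega)
    exact ⟨n, G, hc, hf, by omega⟩
  have h2 : ∀ k : ℕ, Even k → 8 ≤ k → k ∈ setK := by
    intro k hk hk8
    obtain ⟨n, G, hc, hf, hn⟩ := h1 k hk (by omega)
    refine ⟨by omega, n, G, hc, hf, ?_⟩
    obtain ⟨t, rfl⟩ := hk
    omega
  refine ⟨h1, h2, ?_⟩
  intro h
  have := h2 8 (by decide) le_rfl
  rw [h] at this
  exact this

end Pool.Agent.Results.MP_dfa28f_co.EvenLengths
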